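import Mathlib

open Finset

namespace Pool.Agent.Results.MP_b67006_nt.Fails

def T (n : ℕ) (b c : ℤ) : ℤ :=
  ∑ j ∈ range (n / 2 + 1), (n.choose (2 * j) : ℤ) * ((2 * j).choose j : ℤ) * b ^ (n - 2 * j) * c ^ j

def Cg (p m : ℕ) (u v : ℚ) : Prop := (p : ℤ) ^ m ∣ (u - v).num

def S (p : ℕ) : ℚ := ∑ k ∈ range ((p - 1) / 2 + 1), ((2 * k).choose k : ℚ) / 16 ^ k * T (2 * k) 2 3
def S' (p : ℕ) : ℚ := ∑ k ∈ range p, ((2 * k).choose k : ℚ) / 16 ^ k * T (2 * k) 4 (-3)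

theorem result : ¬ ∀ p : ℕ, p.Prime → 3 < p →
    (∀ x y : ℤ, p % 3 = 1 → (p : ℤ) = x ^ 2 + 3 * y ^ 2 → x % 3 = 1 →
      Cg p 2 (S p) (S' p) ∧ Cg p 2 (S' p) (jacobiSym (-1) p * (2 * x - p / (2 * x)))) ∧
    (p % 3 = 2 → Cg p 1 (S p) (S' p) ∧ Cg p 1 (S' p) 0) := by
  intro h
  have h1 := ((h 7 (by norm_num) (by norm_num)).1 (-2) 1 rfl (by norm_num) (by norm_num)).1
  revert h1
  unfold Cg S S' T
  decide +kernel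

end Pool.Agent.Results.MP_b67006_nt.Fails
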